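import Pool.Agent.Helper29.TW.LVL
import Pool.Agent.Helper37.TW3.Defs

/-!
# Project TW3, block W5
-/

set_option autoImplicit false
set_option linter.unusedSectionVars false

namespace Pool.Agent.TW3

open VC Filter Topology NumberField IsDedekindDomain IntermediateField Pool.Agent.SC Pool.Agent.L
open Pool.Agent.M (OverPl Moves BPl)
open Pool.Agent.HG (Pr nm IsOdd)
open Pool.Agent.TW

noncomputable section

section one

variable {k K0 E U : Type} [Field k] [NumberField k] [Field K0] [Field E] [Field U] [Algebra k K0]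
  [Algebra k E] [Algebra E U] [Algebra K0 U] [Algebra k U] [IsScalarTower k E U]
  [IsScalarTower k K0 U] {h : K0} {r : U}

/-- one place `b₀` -/
theorem one_place29 (hLM : Pool.Agent.M.StmtLM) (hK3 : StmtK3) (hAR : StmtAR)
    (hLVA : StmtLVA) (hTRV : StmtTRV) (hFR : StmtFR) (G : Geo k K0 E U h r)
    {b₀ : Place E (L0 E K0 (U := U))}
    (hfix : ∀ (c : k) (Φ : (E ≃ₐ[k] E) →* (U ≃+* U)), c ≠ 0 → Act (K0 := K0) r c Φ →
      ∀ σ : E ≃ₐ[k] E, Moves (Φ σ) _ b₀ b₀)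
    {N' : IntermediateField E U} (hN' : Lvl E K0 N')
    (hex : ∀ a : U ≃ₐ[E] U, (∀ x ∈ L0 E K0 (U := U), a x = x) → ∀ x ∈ N', a (a x) = x)
    {N : IntermediateField E U} (hle : N' ≤ N) {BadN : Set (Pr k)} (hBadN : BadN.Finite) (B : ℕ) :
    Rare (fun c : k => ∃ Φ : (E ≃ₐ[k] E) →* (U ≃+* U), Act (K0 := K0) r c Φ ∧
      (∀ v : Pr k, v ∉ BadN → B < nm v → IsOdd v c → OptAt c Φ N b₀ v) ∧
      ∃ σ : E ≃ₐ[k] E, ¬ ∃ Q : Place E N', OverPl b₀ Q ∧ Moves (Φ σ) N' Q Q) := by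
  have hclE : IsAlgClosed E := G.clE
  have halgE : Algebra.IsAlgebraic k E := G.algE
  have hcE : CharZero E := charZero_of_injective_algebraMap (algebraMap k E).injective
  have hfin : Finite (PP29 b₀ N') := finite29 G.ff hN'
  obtain ⟨Z, hZN, hZ⟩ := exists_sep29 (b₀ := b₀) hN'
  obtain ⟨C, hC⟩ := k3_29 hK3 G hN' hZ
  obtain ⟨_, -, -, -, -, BadM, hBadM, hLM1⟩ := hLM k K0 E U h r G Z
  obtain ⟨BadA, hBadA, hAR1⟩ := hAR k E {2} C (by
    intro s hs
    rw [Finset.mem_singleton.1 hs]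
    exact two_ne_zero)
  obtain ⟨BB, hBB⟩ := Pool.Agent.Helper22.M.exists_B22 k
  set Bad : Set (Pr k) := BadN ∪ BadM ∪ BadA ∪ (BB B : Set (Pr k)) with hBad
  have hBadfin : Bad.Finite := ((hBadN.union hBadM).union hBadA).union (BB B).finite_toSet
  have hCfin : FiniteDimensional k (adjoin k (C : Set E)) := by
    have : Finite (C : Set E) := C.finite_toSet.to_subtype
    exact finiteDimensional_adjoin fun x _ => (Algebra.IsAlgebraic.isAlgebraic x).isIntegral
  have hA2 : ∀ a ∈ A29 (b₀ := b₀) hN', a * a = 1 := fun a ha => A29_sq hN' hex ha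
  intro ε hε
  have h2 := hLVA k E (PP29 b₀ N') (A29 (b₀ := b₀) hN') hA2 (adjoin k (C : Set E)) hCfin Bad hBadfin
    ε hε
  filter_upwards [h2] with X hX2
  intro T hT hP
  refine hX2 T hT fun c hcT => ?_
  obtain ⟨hc0, hcX, Φ, hΦ, hopt, σ, hσ⟩ := hP c hcT
  refine ⟨hc0, hcX, (pi29 hN').comp (phi29 hΦ (hfix c Φ hc0 hΦ)), ?_, σ, fun x hx => ?_⟩
  · refine rep29 hFR hTRV G (N := N) hN' hle hex hZ hC ?_ hc0 hΦ _ ?_ ?_
    · intro v hv O hO
      obtain ⟨h5, h6⟩ := hAR1 v (fun h7 => hv (Or.inl (Or.inr h7))) O hO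
      exact ⟨h5 2 (Finset.mem_singleton_self _), h6⟩
    · intro v hv O F p f hD
      exact (hLM1 v (fun h7 => hv (Or.inl (Or.inl (Or.inr h7)))) c hc0 Φ hΦ O F p f hD).1
    · intro v hv hodd
      refine hopt v (fun h7 => hv (Or.inl (Or.inl (Or.inl h7)))) ?_ hodd
      by_contra hle'
      exact hv (Or.inr ((hBB B v).2 (not_lt.1 hle')))
  · exact hσ ⟨x.1, x.2, (moves_pi29 hN' _ x x).2 hx⟩

end one

/-- a finite union of rare properties -/
theorem rare_union29 {k ι : Type} [Field k] [NumberField k] (R : Finset ι) (P : ι → k → Prop)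
    (hP : ∀ i ∈ R, Rare (P i)) : Rare (fun c => ∃ i ∈ R, P i c) := by
  classical
  induction R using Finset.induction_on with
  | empty =>
    intro ε hε
    refine Filter.Eventually.of_forall fun X T _ hP => ?_
    have h0 : T = ∅ := by
      rw [Finset.eq_empty_iff_forall_notMem]
      intro c hc
      obtain ⟨-, -, i, hi, -⟩ := hP c hc
      exact absurd hi (Finset.notMem_empty i)
    rw [h0, Finset.card_empty, Nat.cast_zero]
    positivity
  | insert i R hi ih =>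
    intro ε hε
    have h1 := hP i (Finset.mem_insert_self i R) (ε / 2) (half_pos hε)
    have h2 := ih (fun j hj => hP j (Finset.mem_insert_of_mem hj)) (ε / 2) (half_pos hε)
    filter_upwards [h1, h2] with X hX1 hX2
    intro T hT hPT
    have h3 := hX1 (T.filter fun c => P i c) (fun c hc c' hc' => hT c (Finset.mem_filter.1 hc).1 c'
      (Finset.mem_filter.1 hc').1) (fun c hc => ⟨(hPT c (Finset.mem_filter.1 hc).1).1,
        (hPT c (Finset.mem_filter.1 hc).1).2.1, (Finset.mem_filter.1 hc).2⟩)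
    have h4 := hX2 (T.filter fun c => ¬ P i c) (fun c hc c' hc' => hT c (Finset.mem_filter.1 hc).1 c'
      (Finset.mem_filter.1 hc').1) (fun c hc => by
        obtain ⟨hcT, hcQ⟩ := Finset.mem_filter.1 hc
        obtain ⟨hc0, hcX, j, hj, hj2⟩ := hPT c hcT
        refine ⟨hc0, hcX, j, ?_, hj2⟩
        rcases Finset.mem_insert.1 hj with rfl | hj
        · exact absurd hj2 hcQ
        · exact hj)
    have h5 : (T.card : ℝ) = ((T.filter fun c => P i c).card : ℝ) +
        ((T.filter fun c => ¬ P i c).card : ℝ) := by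
      rw [← Finset.card_filter_add_card_filter_not (fun c => P i c)]
      push_cast
      rfl
    rw [h5]
    linarith

open scoped Classical in
theorem lvlr (hAN : StmtANR) (hLM : Pool.Agent.M.StmtLM) (hK3 : StmtK3) (hAR : StmtAR)
    (hLVA : StmtLVA) (hTRV : StmtTRV) (hFR : StmtFR) : StmtLVLR := by
  intro k K0 E U _ _ _ _ _ _ _ _ _ _ _ _ h r G R hR N' hN' hMN' hex
  obtain ⟨Zg, hZg⟩ := exists_generators N' hN'.ff
  obtain ⟨N, BadN, hN, -, hZgN, hBadN, hAN1⟩ := hAN k K0 E U h r G R hR Zg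
  have hle : N' ≤ N := by
    intro x hx
    have h1 : x ∈ N'.toSubfield := hx
    rw [hZg] at h1
    have h2 : Subfield.closure (Set.range (algebraMap E U) ∪ (Zg : Set U)) ≤ N.toSubfield := by
      rw [Subfield.closure_le]
      rintro y (⟨e, rfl⟩ | hy)
      · exact N.algebraMap_mem e
      · exact hZgN y hy
    exact h2 h1
  intro ε hε
  obtain ⟨B, hB⟩ := hAN1 (ε / 2) (half_pos hε)
  have h2 := rare_union29 R (fun b₀ c => ∃ Φ : (E ≃ₐ[k] E) →* (U ≃+* U), Act (K0 := K0) r c Φ ∧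
      (∀ v : Pr k, v ∉ BadN → B < nm v → IsOdd v c → OptAt c Φ N b₀ v) ∧
      ∃ σ : E ≃ₐ[k] E, ¬ ∃ Q : Place E N', OverPl b₀ Q ∧ Moves (Φ σ) N' Q Q)
    (fun b₀ hb₀ => one_place29 hLM hK3 hAR hLVA hTRV hFR G (hR.fix b₀ hb₀) hN' hex hle hBadN B)
    (ε / 2) (half_pos hε)
  filter_upwards [hB, h2] with X hX1 hX2
  intro T hT hP
  set Q : k → Prop := fun c => ∃ Φ : (E ≃ₐ[k] E) →* (U ≃+* U), Act (K0 := K0) r c Φ ∧
    ∀ b₀ ∈ R, ∃ v : Pr k, v ∉ BadN ∧ B < nm v ∧ IsOdd v c ∧ ¬ OptAt c Φ N b₀ v with hQ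
  have h3 := hX1 (T.filter Q) (fun c hc c' hc' => hT c (Finset.mem_filter.1 hc).1 c'
    (Finset.mem_filter.1 hc').1) (fun c hc => ⟨(hP c (Finset.mem_filter.1 hc).1).1,
      (hP c (Finset.mem_filter.1 hc).1).2.1, (Finset.mem_filter.1 hc).2⟩)
  have h4 := hX2 (T.filter (¬ Q ·)) (fun c hc c' hc' => hT c (Finset.mem_filter.1 hc).1 c'
    (Finset.mem_filter.1 hc').1) (fun c hc => by
      obtain ⟨hcT, hcQ⟩ := Finset.mem_filter.1 hc
      obtain ⟨hc0, hcX, Φ, hΦ, hσ⟩ := hP c hcT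
      refine ⟨hc0, hcX, ?_⟩
      by_contra hno
      apply hcQ
      refine ⟨Φ, hΦ, fun b₀ hb₀ => ?_⟩
      by_contra hno2
      apply hno
      refine ⟨b₀, hb₀, Φ, hΦ, fun v hv hB2 hodd => ?_, hσ b₀ hb₀⟩
      by_contra hno3
      exact hno2 ⟨v, hv, hB2, hodd, hno3⟩)
  have h5 : (T.card : ℝ) = ((T.filter Q).card : ℝ) + ((T.filter (¬ Q ·)).card : ℝ) := by
    rw [← Finset.card_filter_add_card_filter_not Q]
    push_cast
    rfl
  rw [h5]
  linarith

end

end Pool.Agent.TW3
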